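import Pool.Agent.SSF.StmtsB

/-! MP_005a41_gt, squad SSF, row EFF. -/

set_option autoImplicit false

open Set Topology

namespace Pool.Agent.SSF.H41

open Pool.Agent.LSG Pool.Agent.LPR Pool.Agent.SSF Pool.Agent.CMG

/-- **EFF** -/
theorem eff : EffStmt := by
  intro G X _ _ _ _ _ _ _ _ _ htr
  let N : Subgroup G := (MulAction.toPermHom G X).ker
  have hN : ∀ g : G, g ∈ N ↔ ∀ x : X, g • x = x := by
    intro g
    constructor
    · intro h x
      have h2 := MonoidHom.mem_ker.1 h
      exact DFunLike.congr_fun h2 x
    · intro h
      refine MonoidHom.mem_ker.2 ?_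
      ext x
      exact h x
  letI act : MulAction (G ⧸ N) X :=
    MulAction.compHom X (QuotientGroup.kerLift (MulAction.toPermHom G X))
  have hact : ∀ (g : G) (x : X), ((g : G ⧸ N) • x : X) = g • x := fun g x => rfl
  haveI hcs : ContinuousSMul (G ⧸ N) X := by
    constructor
    have hq : IsOpenQuotientMap (Prod.map (fun g : G => (g : G ⧸ N)) (id : X → X)) :=
      QuotientGroup.isOpenQuotientMap_mk.prodMap IsOpenQuotientMap.id
    rw [hq.isQuotientMap.continuous_iff]
    exact continuous_fst.smul continuous_snd
  have heff : ∀ q : G ⧸ N, (∀ x : X, q • x = x) → q = 1 := by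
    intro q
    induction q using QuotientGroup.induction_on with
    | H g =>
      intro h
      exact (QuotientGroup.eq_one_iff g).2 ((hN g).2 h)
  letI := TopologicalSpace.metrizableSpaceMetric X
  haveI : SecondCountableTopology X := inferInstance
  obtain ⟨D, hDc, hDd⟩ := TopologicalSpace.exists_countable_dense X
  haveI : Countable ↥D := hDc.to_subtype
  have hcont : Continuous (fun (q : G ⧸ N) (d : ↥D) => q • (d : X)) :=
    continuous_pi fun d => continuous_id.smul continuous_const
  have hinj : Function.Injective (fun (q : G ⧸ N) (d : ↥D) => q • (d : X)) := by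
    intro q q' h
    have h1 : ∀ x : X, q • x = q' • x := by
      intro x
      have := Continuous.ext_on hDd (f := fun x : X => q • x) (g := fun x : X => q' • x)
        (continuous_const_smul q) (continuous_const_smul q')
        (fun d hd => congrFun h ⟨d, hd⟩)
      exact congrFun this x
    have h2 : q'⁻¹ * q = 1 := heff _ (fun x => by rw [mul_smul, h1, inv_smul_smul])
    exact (inv_mul_eq_one.1 h2).symm
  have hemb := (hcont.isClosedEmbedding hinj).isEmbedding
  haveI : TopologicalSpace.MetrizableSpace (↥D → X) :=
    TopologicalSpace.metrizableSpace_of_t3_secondCountable _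
  haveI : TopologicalSpace.MetrizableSpace (G ⧸ N) := hemb.metrizableSpace
  refine ⟨G ⧸ N, inferInstance, inferInstance, inferInstance, inferInstance, inferInstance, act,
    hcs, heff, ?_⟩
  intro x y
  obtain ⟨g, hg⟩ := htr x y
  exact ⟨(g : G ⧸ N), hg⟩

end Pool.Agent.SSF.H41
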